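import Pool.Agent.Helper86.SG.Defs

/-!
# Few supports clash at `A`
-/

open Finset

namespace Pool.Agent.Helper18.SG

open _root_.SG
open _root_.SJ (supp IsV dot fib)

theorem mem_supp {n : ℕ} {v : Fin n → ℤ} {x : Fin n} : x ∈ supp v ↔ v x ≠ 0 := by
  unfold supp
  rw [mem_filter]
  exact ⟨fun h => h.2, fun h => ⟨mem_univ _, h⟩⟩

/-- the number of `r`-subsets of `M` which meet `W` -/
theorem card_meet {α : Type*} [DecidableEq α] (M W : Finset α) (r : ℕ) :
    #((powersetCard r M).filter (fun R => ¬ Disjoint R W)) ≤ #W * (#M - 1).choose (r - 1) := by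
  have h1 : (powersetCard r M).filter (fun R => ¬ Disjoint R W) ⊆
      W.biUnion fun x => (powersetCard r M).filter (fun R => x ∈ R) := by
    intro R hR
    rw [mem_filter, Finset.not_disjoint_iff] at hR
    obtain ⟨hR, x, hx, hxW⟩ := hR
    rw [mem_biUnion]
    exact ⟨x, hxW, mem_filter.2 ⟨hR, hx⟩⟩
  refine (card_le_card h1).trans (card_biUnion_le.trans ?_)
  have h2 : ∀ x ∈ W, #((powersetCard r M).filter (fun R => x ∈ R)) ≤
      (#M - 1).choose (r - 1) := by
    intro x _
    by_cases hx : x ∈ M
    · rw [← card_erase_of_mem hx, ← card_powersetCard]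
      refine card_le_card_of_injOn (fun R => R.erase x) ?_ ?_
      · intro R hR
        rw [mem_coe, mem_filter, mem_powersetCard] at hR
        rw [mem_coe, mem_powersetCard, card_erase_of_mem hR.2, hR.1.2]
        exact ⟨erase_subset_erase x hR.1.1, rfl⟩
      · intro R hR R' hR' h
        rw [mem_coe, mem_filter] at hR hR'
        have h3 : R.erase x = R'.erase x := h
        rw [← insert_erase hR.2, ← insert_erase hR'.2, h3]
    · have h3 : (powersetCard r M).filter (fun R => x ∈ R) = ∅ := by
        rw [filter_eq_empty_iff]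
        intro R hR hxR
        exact hx ((mem_powersetCard.1 hR).1 hxR)
      rw [h3, card_empty]
      exact Nat.zero_le _
  refine (sum_le_sum h2).trans ?_
  rw [sum_const, smul_eq_mul]

theorem up : UPStm := by
  classical
  intro n k d F hk hF A hA μ hμ
  obtain ⟨hV, hI⟩ := hF
  obtain ⟨M, hM⟩ : ∃ M : Finset (Fin n), M = univ \ (A ∪ DD F A) := ⟨_, rfl⟩
  have hdis : Disjoint A (DD F A) := by
    rw [Finset.disjoint_right]
    intro x hx hxA
    exact (mem_filter.1 hx).2.1 hxA
  have hMc : #M = μ := by
    rw [hM, card_sdiff_of_subset (subset_univ _), card_univ, Fintype.card_fin,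
      card_union_of_disjoint hdis]
    omega
  have key : ∀ v ∈ F, Clash F v A → supp v \ A ∈ powersetCard (k - (2 * d + 2)) M := by
    intro v hv hc
    rw [mem_powersetCard]
    constructor
    · intro x hx
      rw [mem_sdiff, mem_supp] at hx
      rw [hM, mem_sdiff, mem_union, not_or]
      refine ⟨mem_univ _, hx.2, fun h => hx.1 ?_⟩
      exact (mem_filter.1 h).2.2 v hv hc
    · rw [card_sdiff_of_subset hc.1, hA, (hV v hv).2]
  have inj : ∀ S S' : Finset (Fin n), A ⊆ S → A ⊆ S' → S \ A = S' \ A → S = S' := by
    intro S S' h h' e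
    rw [← sdiff_union_of_subset h, ← sdiff_union_of_subset h', e]
  constructor
  · -- patterns on `A`
    obtain ⟨Q, hQ⟩ : ∃ Q : Finset (Fin n) → Finset (Fin n → ℤ), Q = fun P =>
      F.filter (fun v => Clash F v A ∧ A.filter (fun x => 0 < v x) = P) := ⟨_, rfl⟩
    have h1 : cP F A ⊆ A.powerset.biUnion fun P => (Q P).image supp := by
      intro S hS
      unfold cP at hS
      rw [mem_image] at hS
      obtain ⟨v, hv, rfl⟩ := hS
      rw [mem_filter] at hv
      rw [mem_biUnion]
      refine ⟨A.filter (fun x => 0 < v x), mem_powerset.2 (filter_subset _ _), ?_⟩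
      rw [mem_image]
      refine ⟨v, ?_, rfl⟩
      rw [hQ]
      exact mem_filter.2 ⟨hv.1, hv.2, rfl⟩
    have h2 : ∀ P ∈ A.powerset, #((Q P).image supp) ≤
        (k - (2 * d + 2)) * (μ - 1).choose (k - (2 * d + 2) - 1) := by
      intro P _
      rcases (Q P).eq_empty_or_nonempty with h0 | ⟨v₀, hv₀⟩
      · rw [h0, image_empty, card_empty]
        exact Nat.zero_le _
      rw [hQ] at hv₀
      have hv₀' := mem_filter.1 hv₀
      obtain ⟨hv₀F, hc₀, hP₀⟩ := hv₀'
      obtain ⟨hA₀, w, hw, hw₀⟩ := hc₀
      have hAw : A ⊆ supp w := by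
        intro x hx
        rw [mem_supp, hw₀ x hx, neg_ne_zero]
        exact mem_supp.1 (hA₀ hx)
      have hcw : Clash F w A := ⟨hAw, v₀, hv₀F, fun x hx => by rw [hw₀ x hx, neg_neg]⟩
      have hW : #(supp w \ A) = k - (2 * d + 2) := (mem_powersetCard.1 (key w hw hcw)).2
      have h3 : #((Q P).image supp) ≤
          #((powersetCard (k - (2 * d + 2)) M).filter (fun R => ¬ Disjoint R (supp w \ A))) := by
        refine card_le_card_of_injOn (fun S => S \ A) ?_ ?_
        · intro S hS
          rw [mem_coe, mem_image] at hS
          obtain ⟨v, hv, rfl⟩ := hS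
          rw [hQ] at hv
          obtain ⟨hvF, hc, hP⟩ := mem_filter.1 hv
          rw [mem_coe, mem_filter]
          refine ⟨key v hvF hc, fun hd => ?_⟩
          -- `v = v₀` on `A`
          have hval : ∀ x ∈ A, v x = v₀ x := by
            intro x hx
            have e1 := mem_supp.1 (hc.1 hx)
            have e2 := mem_supp.1 (hA₀ hx)
            have e3 : (0 < v x) ↔ (0 < v₀ x) := by
              have e4 : x ∈ A.filter (fun x => 0 < v x) ↔ x ∈ A.filter (fun x => 0 < v₀ x) := by
                rw [hP, hP₀]
              rw [mem_filter, mem_filter] at e4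
              exact ⟨fun h => (e4.1 ⟨hx, h⟩).2, fun h => (e4.2 ⟨hx, h⟩).2⟩
            have a := (hV v hvF).1 x
            have b := (hV v₀ hv₀F).1 x
            omega
          have hdot : dot v w = -(2 * (d : ℤ) + 2) := by
            unfold dot
            have e1 : ∑ i, v i * w i = ∑ i ∈ A, v i * w i := by
              symm
              refine sum_subset (subset_univ A) fun i _ hi => ?_
              by_contra hne
              have a1 : v i ≠ 0 := fun h => hne (by rw [h, zero_mul])
              have a2 : w i ≠ 0 := fun h => hne (by rw [h, mul_zero])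
              exact Finset.disjoint_left.1 hd (mem_sdiff.2 ⟨mem_supp.2 a1, hi⟩)
                (mem_sdiff.2 ⟨mem_supp.2 a2, hi⟩)
            have e2 : ∑ i ∈ A, v i * w i = ∑ i ∈ A, (-1 : ℤ) := by
              refine sum_congr rfl fun i hi => ?_
              rw [hw₀ i hi, ← hval i hi]
              have e3 := mem_supp.1 (hc.1 hi)
              rcases (hV v hvF).1 i with a | a | a
              · rw [a]; norm_num
              · exact absurd a e3
              · rw [a]; norm_num
            rw [e1, e2, sum_const, hA]
            simp only [nsmul_eq_mul]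
            push_cast
            ring
          have hne : v ≠ w := by
            intro h
            obtain ⟨x, hx⟩ : A.Nonempty := by
              rw [← card_pos, hA]
              omega
            have e1 := hw₀ x hx
            rw [← hval x hx, ← h] at e1
            have e2 := mem_supp.1 (hc.1 hx)
            omega
          exact hI v hvF w hw hne hdot
        · intro S hS S' hS' h
          rw [mem_coe, mem_image] at hS hS'
          obtain ⟨v, hv, rfl⟩ := hS
          obtain ⟨v', hv', rfl⟩ := hS'
          rw [hQ] at hv hv'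
          exact inj _ _ (mem_filter.1 hv).2.1.1 (mem_filter.1 hv').2.1.1 h
      refine h3.trans ((card_meet M _ _).trans ?_)
      rw [hW, hMc]
    refine (card_le_card h1).trans (card_biUnion_le.trans ((sum_le_sum h2).trans ?_))
    rw [sum_const, card_powerset, hA, smul_eq_mul]
  · rw [← hMc, ← card_powersetCard]
    refine card_le_card_of_injOn (fun S => S \ A) ?_ ?_
    · intro S hS
      unfold cP at hS
      rw [mem_coe, mem_image] at hS
      obtain ⟨v, hv, rfl⟩ := hS
      rw [mem_filter] at hv
      exact key v hv.1 hv.2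
    · intro S hS S' hS' h
      unfold cP at hS hS'
      rw [mem_coe, mem_image] at hS hS'
      obtain ⟨v, hv, rfl⟩ := hS
      obtain ⟨v', hv', rfl⟩ := hS'
      exact inj _ _ (mem_filter.1 hv).2.1 (mem_filter.1 hv').2.1 h

end Pool.Agent.Helper18.SG
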